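import Mathlib
import Pool.Agent.R246.BifM

/-!
# MP_11bc5f_an, Q1 : a non-radial simply connected domain whose localization operator with
window `h₁` has `h₀` as an eigenfunction

We disprove the conjecture of Q1: for `r = 1`, `j = 0` there is a Jordan domain `Ω` (the image of
the unit disc under a homeomorphism of the plane), which does not agree up to a null set with any
disc centred at the origin, such that the Gaussian `h₀` is an eigenfunction of `H¹_Ω`.
-/

namespace Pool.Agent.Results.MP_11bc5f_an.BifurcatingDomain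

open scoped ENNReal Topology ComplexConjugate NNReal
open Filter Metric MeasureTheory Real

noncomputable section

/-- time-frequency shift `π(x,ξ) f (t) = e^{2π i ξ t} f (t - x)` -/
def tfShift (w : ℝ × ℝ) (f : ℝ → ℂ) (t : ℝ) : ℂ :=
  Complex.exp (2 * π * Complex.I * w.2 * t) * f (t - w.1)

/-- the inner product `⟨f, g⟩ = ∫ f (t) conj (g t) dt` -/
def inner2 (f g : ℝ → ℂ) : ℂ := ∫ t, f t * conj (g t)

/-- the short-time Fourier transform `V_g f (w) = ⟨f, π(w) g⟩` -/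
def stft (g f : ℝ → ℂ) (w : ℝ × ℝ) : ℂ := inner2 f (tfShift w g)

/-- the unnormalised Hermite function `e^{π t²} (d/dt)^n e^{-2π t²}` -/
def hermiteRaw (n : ℕ) (t : ℝ) : ℝ :=
  Real.exp (π * t ^ 2) * iteratedDeriv n (fun s : ℝ => Real.exp (-(2 * π) * s ^ 2)) t

/-- the Hermite function `h_n`, normalised in `L²` by a positive constant -/
def hermite (n : ℕ) (t : ℝ) : ℂ :=
  (((∫ s, hermiteRaw n s ^ 2) ^ (-(1 / 2) : ℝ) * hermiteRaw n t : ℝ) : ℂ)

/-- the open disc of radius `ρ` centred at the origin of `ℝ²` -/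
def disc (ρ : ℝ) : Set (ℝ × ℝ) := {w | w.1 ^ 2 + w.2 ^ 2 < ρ ^ 2}

/-- `f` is an eigenfunction of the localization operator `H^r_Ω` with Hermite window `h_r`, which
is determined by `⟨H^r_Ω f, g⟩ = ∫_Ω V_{h_r} f · conj (V_{h_r} g)` for all `g ∈ L²` -/
def IsEigenfunction (r : ℕ) (Ω : Set (ℝ × ℝ)) (f : ℝ → ℂ) : Prop :=
  MemLp f 2 volume ∧ ¬ (f =ᵐ[volume] 0) ∧ ∃ lam : ℂ, ∀ g : ℝ → ℂ, MemLp g 2 volume →
    ∫ w in Ω, stft (hermite r) f w * conj (stft (hermite r) g w) = lam * inner2 f g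

open Pool.Agent.R246.BifE Pool.Agent.R246.BifF Pool.Agent.R246.BifG Pool.Agent.R246.BifL
  Pool.Agent.R246.BifM

theorem raw_zero (t : ℝ) : hermiteRaw 0 t = Real.exp (-π * t ^ 2) := by
  unfold hermiteRaw
  rw [iteratedDeriv_zero, ← Real.exp_add]
  congr 1
  ring

theorem raw_one (t : ℝ) : hermiteRaw 1 t = -(4 * π) * (t * Real.exp (-π * t ^ 2)) := by
  unfold hermiteRaw
  have h1 : HasDerivAt (fun s : ℝ => Real.exp (-(2 * π) * s ^ 2))
      (Real.exp (-(2 * π) * t ^ 2) * (-(2 * π) * (2 * t))) t := by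
    have h2 := (((hasDerivAt_id t).fun_pow 2).const_mul (-(2 * π))).exp
    refine h2.congr_deriv ?_
    simp only [id]
    push_cast
    ring
  rw [iteratedDeriv_one, h1.deriv]
  have h3 : Real.exp (-π * t ^ 2) = Real.exp (π * t ^ 2) * Real.exp (-(2 * π) * t ^ 2) := by
    rw [← Real.exp_add]; congr 1; ring
  rw [h3]
  ring

/-- normalising constants -/
def cc (n : ℕ) : ℝ := (∫ s, hermiteRaw n s ^ 2) ^ (-(1 / 2) : ℝ)

theorem herm_zero : hermite 0 = fun t => (cc 0 : ℂ) * g0 t := by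
  funext t
  unfold hermite g0 cc
  rw [raw_zero]
  push_cast
  rfl

theorem herm_one : hermite 1 = fun t => (-(4 * π) * cc 1 : ℂ) * g1 t := by
  funext t
  unfold hermite g1 cc
  rw [raw_one]
  push_cast
  ring

theorem cc_zero : cc 0 = 2 ^ (1 / 4 : ℝ) := by
  unfold cc
  have h1 : ∀ s : ℝ, hermiteRaw 0 s ^ 2 = Real.exp (-(2 * π) * s ^ 2) := by
    intro s
    rw [raw_zero, ← Real.exp_nat_mul]
    congr 1
    push_cast
    ring
  simp only [h1]
  rw [integral_gaussian]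
  have h2 : π / (2 * π) = 2⁻¹ := by
    field_simp
  rw [h2, Real.sqrt_eq_rpow, ← Real.rpow_mul (by norm_num), Real.inv_rpow (by norm_num),
    ← Real.rpow_neg (by norm_num)]
  norm_num

/-- `h₀(t) = 2^{1/4} e^{-π t²}` -/
theorem hermite_zero (t : ℝ) :
    hermite 0 t = (((2 : ℝ) ^ (1 / 4 : ℝ) * Real.exp (-π * t ^ 2) : ℝ) : ℂ) := by
  rw [herm_zero]
  unfold g0
  rw [cc_zero]
  push_cast
  rfl

theorem herm_zero_memLp : MemLp (hermite 0) 2 volume := by
  have hc : Continuous (hermite 0) := by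
    have : hermite 0 = fun t : ℝ => (((2 : ℝ) ^ (1 / 4 : ℝ) * Real.exp (-π * t ^ 2) : ℝ) : ℂ) :=
      funext hermite_zero
    rw [this]
    fun_prop
  rw [memLp_two_iff_integrable_sq_norm hc.aestronglyMeasurable]
  have : (fun t : ℝ => ‖hermite 0 t‖ ^ 2)
      = fun t : ℝ => ((2 : ℝ) ^ (1 / 4 : ℝ)) ^ 2 * Real.exp (-(2 * π) * t ^ 2) := by
    funext t
    rw [hermite_zero, Complex.norm_real, Real.norm_eq_abs, sq_abs, mul_pow, ← Real.exp_nat_mul]
    congr 2
    push_cast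
    ring
  rw [this]
  exact (integrable_exp_neg_mul_sq (by positivity)).const_mul _

theorem herm_zero_ne : ¬ (hermite 0 =ᵐ[volume] 0) := by
  intro h
  have hc : Continuous (hermite 0) := by
    have : hermite 0 = fun t : ℝ => (((2 : ℝ) ^ (1 / 4 : ℝ) * Real.exp (-π * t ^ 2) : ℝ) : ℂ) :=
      funext hermite_zero
    rw [this]
    fun_prop
  have h1 := (Continuous.ae_eq_iff_eq volume hc continuous_zero).mp h
  have h2 := congrFun h1 0
  rw [hermite_zero] at h2
  simp only [Pi.zero_apply, Complex.ofReal_eq_zero] at h2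
  have : 0 < (2 : ℝ) ^ (1 / 4 : ℝ) * Real.exp (-π * 0 ^ 2) := by positivity
  exact this.ne' h2

theorem stft_scale (c d : ℂ) (g f : ℝ → ℂ) (w : ℝ × ℝ) :
    stft (fun t => c * g t) (fun t => d * f t) w
      = d * conj c * ∫ t, f t * conj (tf w.1 w.2 g t) := by
  unfold stft inner2 tfShift tf
  rw [← integral_const_mul]
  congr 1
  funext t
  simp only [map_mul]
  ring

theorem eig {R : ℝ} {a c : ℕ → ℝ} (F : ℂ ≃ₜ ℂ)
    (hR : 0 < R) (ha0 : a 0 = 0) (ha : Summable (fun k : ℕ => (k : ℝ) * |a k|))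
    (hε : ∑' k : ℕ, (k : ℝ) * |a k| ≤ 1 / 40) (μ : ℝ) (hμ : μ = π * R ^ 2)
    (hcs : Summable fun k => |c k|)
    (hc : ∀ z : ℂ, ‖z‖ = 1 → ∑' k : ℕ, (c k : ℂ) * z ^ k = Mval μ a z)
    (hF : F '' ball 0 1 = ff R a '' ball 0 1) :
    IsEigenfunction 1 (toProd (F '' ball 0 1)) (hermite 0) := by
  refine ⟨herm_zero_memLp, herm_zero_ne,
    (-(4 * π) * cc 1 : ℂ) * conj (-(4 * π) * cc 1 : ℂ)
      * (K0 / (4 * π) * (1 - Complex.exp (-μ) * c 0)), fun g hg => ?_⟩
  have e1 : ∀ w : ℝ × ℝ, stft (hermite 1) (hermite 0) w * conj (stft (hermite 1) g w)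
      = (cc 0 : ℂ) * ((-(4 * π) * cc 1 : ℂ) * conj (-(4 * π) * cc 1 : ℂ)) *
        (VV w * conj (∫ t, g t * conj (tf w.1 w.2 g1 t))) := by
    intro w
    have hg' : g = fun t => (1 : ℂ) * g t := by funext t; ring
    rw [herm_zero, herm_one, stft_scale]
    conv_lhs => rw [hg', stft_scale]
    unfold VV
    simp only [map_mul, Complex.conj_conj, map_one]
    ring
  simp only [e1]
  rw [integral_const_mul, fubini (omega_open F).measurableSet (omega_bounded F) VV_cont hg]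
  have e2 : ∀ t : ℝ, (∫ w in toProd (F '' ball 0 1), VV w * tf w.1 w.2 g1 t) * conj (g t)
      = K0 / (4 * π) * (1 - Complex.exp (-μ) * c 0) * (g0 t * conj (g t)) := by
    intro t
    rw [hF, inner_int hR ha0 ha hε μ hμ hcs hc t]
    ring
  simp only [e2]
  rw [integral_const_mul]
  have e3 : inner2 (hermite 0) g = cc 0 * ∫ t, g0 t * conj (g t) := by
    unfold inner2
    rw [herm_zero, ← integral_const_mul]
    congr 1
    funext t
    ring
  rw [e3]
  ring

theorem disc_eq {ρ : ℝ} (hρ : 0 ≤ ρ) : disc ρ = toProd (ball 0 ρ) := by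
  unfold toProd disc
  ext w
  constructor
  · intro hw
    refine ⟨⟨w.1, w.2⟩, ?_, rfl⟩
    rw [mem_ball_zero_iff]
    have h2 : ‖(⟨w.1, w.2⟩ : ℂ)‖ ^ 2 = w.1 ^ 2 + w.2 ^ 2 := by
      rw [← Complex.normSq_eq_norm_sq, Complex.normSq_mk]
      ring
    have h3 : ‖(⟨w.1, w.2⟩ : ℂ)‖ ^ 2 < ρ ^ 2 := by
      rw [h2]; exact hw
    exact lt_of_pow_lt_pow_left₀ 2 hρ h3
  · rintro ⟨z, hz, rfl⟩
    rw [mem_ball_zero_iff] at hz
    have h2 : ‖z‖ ^ 2 = z.re ^ 2 + z.im ^ 2 := by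
      rw [← Complex.normSq_eq_norm_sq, Complex.normSq_apply]
      ring
    show z.re ^ 2 + z.im ^ 2 < ρ ^ 2
    rw [← h2]
    exact pow_lt_pow_left₀ hz (norm_nonneg _) two_ne_zero

theorem disc_abs (ρ : ℝ) : disc ρ = disc |ρ| := by
  unfold disc
  rw [sq_abs]

/-- the identification of `ℂ` with `ℝ × ℝ` as a homeomorphism -/
def eH : ℂ ≃ₜ ℝ × ℝ := Complex.equivRealProdCLM.toHomeomorph

theorem toProd_eq (S : Set ℂ) : toProd S = eH '' S := rfl

theorem result : ∃ Ω : Set (ℝ × ℝ), IsOpen Ω ∧ Bornology.IsBounded Ω ∧ SimplyConnectedSpace Ω ∧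
    (∃ Φ : (ℝ × ℝ) ≃ₜ (ℝ × ℝ), Ω = Φ '' disc 1) ∧ 0 < volume Ω ∧ volume Ω < ⊤ ∧
    (∀ ρ : ℝ, ¬ (Ω =ᵐ[volume] disc ρ)) ∧ IsEigenfunction 1 Ω (hermite 0) := by
  obtain ⟨μ, a, c, hμ1, ha0, ha1, ha, hsum, hcs, hc⟩ := exists_data (1 / 40) (by norm_num)
  have hμ0 : 0 < μ := by
    have := abs_lt.mp hμ1
    linarith [this.1]
  set R : ℝ := √(μ / π) with hR
  have hR0 : 0 < R := Real.sqrt_pos.mpr (div_pos hμ0 Real.pi_pos)
  have hμR : μ = π * R ^ 2 := by
    rw [hR, Real.sq_sqrt (div_pos hμ0 Real.pi_pos).le]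
    field_simp
  obtain ⟨F, hF⟩ := exists_homeo R hR0 ha0 ha hsum.le
  have hFi : F '' ball 0 1 = ff R a '' ball 0 1 := by
    apply Set.image_congr
    intro z hz
    exact hF z (mem_ball_zero_iff.mp hz).le
  have hop : IsOpen (toProd (F '' ball 0 1)) := by
    rw [toProd_eq]
    exact eH.isOpenMap _ (omega_open F)
  refine ⟨toProd (F '' ball 0 1), hop, ?_, ?_, ?_, ?_, ?_, ?_, ?_⟩
  · rw [toProd_eq]
    exact (Complex.equivRealProdCLM.toContinuousLinearMap.lipschitz).isBounded_image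
      (omega_bounded F)
  · have hsc := omega_sc F
    rw [toProd_eq]
    exact (eH.image (F '' ball 0 1)).symm.toHomotopyEquiv.simplyConnectedSpace
  · refine ⟨(eH.symm.trans F).trans eH, ?_⟩
    rw [disc_eq zero_le_one, toProd_eq, toProd_eq, ← Set.image_comp, ← Set.image_comp]
    apply Set.image_congr
    intro z _
    simp
  · rw [vol_toProd]
    exact omega_pos F
  · rw [vol_toProd]
    exact omega_finite F
  · intro ρ h
    rw [disc_abs, disc_eq (abs_nonneg ρ)] at h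
    refine not_disc R F hR0 ha0 ha1 ha hF |ρ| ?_
    have h2 := Complex.volume_preserving_equiv_real_prod.quasiMeasurePreserving.preimage_ae_eq h
    unfold toProd at h2
    rw [Set.preimage_image_eq _ Complex.measurableEquivRealProd.injective,
      Set.preimage_image_eq _ Complex.measurableEquivRealProd.injective] at h2
    exact h2
  · exact eig F hR0 ha0 ha hsum.le μ hμR hcs hc hFi

end

end Pool.Agent.Results.MP_11bc5f_an.BifurcatingDomain
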